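import Pool.Agent.Work.MP_4545a8_an.SC.Main

set_option autoImplicit false

/-!
The combined criterion for minimal sets of fixed points (of sign changes, for a word with both
exponents positive).
-/

namespace Pool.Agent.MP4545.SC

open Set Function Filter Topology Dynamics
open Pool.Agent.MP4545 Pool.Agent.MP4545.OM

variable {f g : ℝ → ℝ} {a b : ℝ}

/-- a word has zero entropy near a point of a minimal set -/
lemma jmin_entropy {A M : Set ℝ} (S : Sys f g a b) (uf : UniformContinuous f)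
    (ug : UniformContinuous g) (hM : JMin f g A M) (hAab : A ⊆ Icc a b) {x y : ℝ}
    (hxy : (Ioo x y ∩ M).Nonempty) {k l : ℕ} (hkl : (k, l) ≠ (0, 0))
    (h0 : coverEntropy (f^[k] ∘ g^[l]) (Icc x y ∩ Icc a b) ≤ 0) :
    ∃ x ∈ Icc a b, x ∈ periodicPts f ∩ periodicPts g := by
  have hMab : M ⊆ Icc a b := hM.sub.trans hAab
  obtain ⟨⟨p, hp, u, hu, huO, hpO⟩, ⟨q, hq, v, hv, hvO, hqO⟩⟩ :=
    hM.ret S hAab isOpen_Ioo hxy
  obtain ⟨z, hz, hzP⟩ := spread2 S uf ug hkl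
    (J := Icc x y ∩ Icc a b) (ordConnected_Icc.inter ordConnected_Icc).isPreconnected
    inter_subset_right hp hq
    ⟨f^[p] u, ⟨Ioo_subset_Icc_self hpO, hMab (hM.word p 0 hu)⟩, u,
      ⟨Ioo_subset_Icc_self huO, hMab hu⟩, rfl⟩
    ⟨g^[q] v, ⟨Ioo_subset_Icc_self hqO, hMab (hM.word 0 q hv)⟩, v,
      ⟨Ioo_subset_Icc_self hvO, hMab hv⟩, rfl⟩ h0
  exact ⟨z, hz, hzP⟩

/-- uncountably many good points give an invariant interval -/
lemma good_interval (S : Sys f g a b) {k l : ℕ} {M : Set ℝ} (hMab : M ⊆ Icc a b) (hM : Perfect M)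
    (hMne : M.Nonempty) (hMfix : ∀ x ∈ M, f^[k] (g^[l] x) = x)
    (hT : ¬ {z | z ∈ M ∧ (DifferentiableWithinAt ℝ (f^[k] ∘ g^[l]) (Icc a b) z ∨
        ∃ δ > 0, ∀ u ∈ Icc a b, |u - z| < δ → f^[k] (g^[l] u) = z → u = z)}.Countable) :
    ∃ x y : ℝ, ∃ j : ℕ, 0 < j ∧
        MapsTo (f^[k] ∘ g^[l])^[j] (Icc x y ∩ Icc a b) (Icc x y) ∧
        (M ∩ Ioo x y).Nonempty ∧ ¬ M ⊆ Icc x y := by
  have hunc : ¬ (M ∩ {z | ∃ δ > 0, z ∈ NC (f^[k] ∘ g^[l]) δ}).Countable := by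
    intro hcount
    apply hT
    refine (hcount.union (two_sided_countable M)).mono ?_
    rintro z ⟨hz, h2⟩
    by_contra hcon
    have h1 : ¬ ∃ δ > 0, z ∈ NC (f^[k] ∘ g^[l]) δ := fun h => hcon (Or.inl ⟨hz, h⟩)
    have h3 : (∀ δ > 0, ∃ y ∈ M, z < y ∧ y < z + δ) ∧ (∀ δ > 0, ∃ y ∈ M, z - δ < y ∧ y < z) := by
      by_contra h
      exact hcon (Or.inr ⟨hz, h⟩)
    apply h1
    rcases h2 with h2 | h2
    · exact nc_of_diff hMab hMfix (hMfix z hz) h3.1 h3.2 h2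
    · obtain ⟨δ, hδ, hiso⟩ := h2
      obtain ⟨y, hy, hy1, hy2⟩ := h3.1 δ hδ
      obtain ⟨w, hw, hw1, hw2⟩ := h3.2 δ hδ
      have hya := hMab hy
      have hwa := hMab hw
      refine nc_of_isolated ((S.cf.iterate k).comp (S.cg.iterate l)) hMfix h3.1 h3.2
        ⟨min (y - z) (z - w), lt_min (by linarith) (by linarith), ?_⟩
      intro u hu hfu
      rw [lt_min_iff, abs_lt, abs_lt] at hu
      exact hiso u ⟨by linarith [hu.2.1, hwa.1], by linarith [hu.1.2, hya.2]⟩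
        (by rw [abs_lt]; constructor <;> linarith [hu.2.1, hu.1.2]) hfu
  obtain ⟨t, -, ht1, ht2⟩ := exists_two hM isOpen_univ (by rwa [univ_inter])
  obtain ⟨m1, hm1, hm1', -⟩ := ht1 1 one_pos
  obtain ⟨m2, hm2, -, hm2'⟩ := ht2 1 one_pos
  obtain ⟨x, y, -, -, h1, h2, h3⟩ := nc_interval hMfix hm2 hm1 (hm2'.trans hm1') hunc
  exact ⟨x, y, 1, one_pos, fun u hu => h1 hu.1, h2, h3⟩

/-- The combined criterion. -/
theorem comb (S : Sys f g a b) (uf : UniformContinuous f) (ug : UniformContinuous g) {k l : ℕ}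
    (hkl : 0 < k + l)
    (H : ∀ M : Set ℝ, M ⊆ Icc a b → Perfect M → M.Nonempty → (∀ x ∈ M, f^[k] (g^[l] x) = x) →
      (0 < k → 0 < l → M ⊆ SCh (f^[k] ∘ g^[l])) → f '' M = M → g '' M = M →
      (∀ C ⊆ M, IsClosed C → C.Nonempty → (∀ x ∈ C, f x ∈ C) → (∀ x ∈ C, g x ∈ C) → C = M) →
      (¬ {z | z ∈ M ∧ (DifferentiableWithinAt ℝ (f^[k] ∘ g^[l]) (Icc a b) z ∨
        ∃ δ > 0, ∀ u ∈ Icc a b, |u - z| < δ → f^[k] (g^[l] u) = z → u = z)}.Countable) ∨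
      (∃ x y : ℝ, ∃ j : ℕ, 0 < j ∧
        MapsTo (f^[k] ∘ g^[l])^[j] (Icc x y ∩ Icc a b) (Icc x y) ∧
        (M ∩ Ioo x y).Nonempty ∧ ¬ M ⊆ Icc x y) ∨
      (∃ x y : ℝ, (Ioo x y ∩ M).Nonempty ∧ ∃ i j : ℕ, (i, j) ≠ (0, 0) ∧
        coverEntropy (f^[i] ∘ g^[j]) (Icc x y ∩ Icc a b) ≤ 0)) :
    ∃ x ∈ Icc a b, x ∈ periodicPts f ∩ periodicPts g := by
  by_contra hcon
  have H' : ∀ M : Set ℝ, M ⊆ Icc a b → Perfect M → M.Nonempty → (∀ x ∈ M, f^[k] (g^[l] x) = x) →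
      (0 < k → 0 < l → M ⊆ SCh (f^[k] ∘ g^[l])) → f '' M = M → g '' M = M →
      (∀ C ⊆ M, IsClosed C → C.Nonempty → (∀ x ∈ C, f x ∈ C) → (∀ x ∈ C, g x ∈ C) → C = M) →
      ∃ x y : ℝ, ∃ j : ℕ, 0 < j ∧
        MapsTo (f^[k] ∘ g^[l])^[j] (Icc x y ∩ Icc a b) (Icc x y) ∧
        (M ∩ Ioo x y).Nonempty ∧ ¬ M ⊆ Icc x y := by
    intro M hMab hM hMne hMfix hMs hfM hgM hmin
    rcases H M hMab hM hMne hMfix hMs hfM hgM hmin with h | h | h
    · exact good_interval S hMab hM hMne hMfix h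
    · exact h
    · exfalso
      obtain ⟨x, y, hxy, i, j, hij, h0⟩ := h
      have hJ : JMin f g M M :=
        { closed := hM.closed
          ne := hMne
          sub := Subset.rfl
          invf := fun x hx => hfM ▸ mem_image_of_mem f hx
          invg := fun x hx => hgM ▸ mem_image_of_mem g hx
          min := fun C hC hCne hCM hCf hCg => (hmin C hCM hC hCne hCf hCg).symm.subset }
      exact hcon (jmin_entropy S uf ug hJ hMab hxy hij h0)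
  apply hcon
  rcases Nat.eq_zero_or_pos k with hk | hk
  · apply oneMap_main S hkl
    intro M h1 h2 h3 h4 h5 h6 h7
    exact H' M h1 h2 h3 h4 (fun h => absurd h (by omega)) h5 h6 h7
  · rcases Nat.eq_zero_or_pos l with hl | hl
    · apply oneMap_main S hkl
      intro M h1 h2 h3 h4 h5 h6 h7
      exact H' M h1 h2 h3 h4 (fun _ h => absurd h (by omega)) h5 h6 h7
    · apply signChange_main S hk hl
      intro M h1 h2 h3 h4 h5 h6 h7
      exact H' M h1 h2 h3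
        (fun x hx => sch_fix ((S.cf.iterate k).comp (S.cg.iterate l)) (h4 hx)) (fun _ _ => h4)
        h5 h6 h7

end Pool.Agent.MP4545.SC
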