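import Pool.Agent.Work.MP_4545a8_an.OM.Cor

set_option autoImplicit false

/-!
Sign changes of `h - id` for `h = f ∘ e = e ∘ f`: the set of sign changes is closed, consists of
fixed points and is mapped into itself by `f`.
-/

namespace Pool.Agent.MP4545.SC

open Set Function Filter Topology
open Pool.Agent.MP4545 Pool.Agent.MP4545.OM

/-- the points in all neighbourhoods of which `h - id` takes positive and negative values -/
def SCh (h : ℝ → ℝ) : Set ℝ :=
  {z | ∀ δ > 0, (∃ s, |s - z| < δ ∧ s < h s) ∧ ∃ t, |t - z| < δ ∧ h t < t}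

lemma sch_closed (h : ℝ → ℝ) : IsClosed (SCh h) := by
  apply isClosed_of_closure_subset
  intro z hz δ hδ
  obtain ⟨w, hw, hw'⟩ := Metric.mem_closure_iff.1 hz (δ / 2) (by positivity)
  rw [Real.dist_eq, abs_sub_comm] at hw'
  obtain ⟨⟨s, hs, hs'⟩, t, ht, ht'⟩ := hw (δ / 2) (by positivity)
  refine ⟨⟨s, ?_, hs'⟩, t, ?_, ht'⟩
  · rw [abs_lt] at hs hw' ⊢
    constructor <;> linarith [hs.1, hs.2, hw'.1, hw'.2]
  · rw [abs_lt] at ht hw' ⊢
    constructor <;> linarith [ht.1, ht.2, hw'.1, hw'.2]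

lemma sch_fix {h : ℝ → ℝ} (ch : Continuous h) {z : ℝ} (hz : z ∈ SCh h) : h z = z := by
  by_contra hne
  rcases lt_or_gt_of_ne hne with h1 | h1
  · have : ∀ᶠ s in 𝓝 z, h s < s := (ch.tendsto z).eventually_lt tendsto_id h1
    obtain ⟨δ, hδ, hd⟩ := Metric.eventually_nhds_iff.1 this
    obtain ⟨⟨s, hs, hs'⟩, -⟩ := hz δ hδ
    have := hd (show dist s z < δ by rw [Real.dist_eq]; exact hs)
    linarith
  · have : ∀ᶠ s in 𝓝 z, s < h s := tendsto_id.eventually_lt (ch.tendsto z) h1
    obtain ⟨δ, hδ, hd⟩ := Metric.eventually_nhds_iff.1 this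
    obtain ⟨-, t, ht, ht'⟩ := hz δ hδ
    have := hd (show dist t z < δ by rw [Real.dist_eq]; exact ht)
    linarith

/-- a zero between two points of opposite sign -/
lemma zero_between {u : ℝ → ℝ} (cu : Continuous u) {z δ s t : ℝ} (hs : |s - z| < δ)
    (ht : |t - z| < δ) (h1 : 0 < u s) (h2 : u t < 0) : ∃ x, |x - z| < δ ∧ u x = 0 := by
  rcases le_total s t with hst | hst
  · obtain ⟨x, hx, hx'⟩ := intermediate_value_Icc' hst cu.continuousOn
      (show (0 : ℝ) ∈ Icc (u t) (u s) from ⟨h2.le, h1.le⟩)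
    refine ⟨x, ?_, hx'⟩
    rw [abs_lt] at hs ht ⊢
    constructor <;> linarith [hx.1, hx.2]
  · obtain ⟨x, hx, hx'⟩ := intermediate_value_Icc hst cu.continuousOn
      (show (0 : ℝ) ∈ Icc (u t) (u s) from ⟨h2.le, h1.le⟩)
    refine ⟨x, ?_, hx'⟩
    rw [abs_lt] at hs ht ⊢
    constructor <;> linarith [hx.1, hx.2]

/-- **Invariance of the sign changes.** -/
theorem sch_inv {h f e : ℝ → ℝ} (cf : Continuous f) (ce : Continuous e)
    (hfe : ∀ x, f (e x) = h x) (hef : ∀ x, e (f x) = h x) : ∀ z ∈ SCh h, f z ∈ SCh h := by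
  intro z hz δ hδ
  -- close to `z` the values of `f` are close to `f z`
  obtain ⟨δ', hδ', hd⟩ := Metric.continuousAt_iff.1 cf.continuousAt (δ / 2)
    (show (0 : ℝ) < δ / 2 by positivity)
  have hd' : ∀ x, |x - z| < δ' → |f x - f z| < δ / 2 := fun x hx => by
    have := hd (show dist x z < δ' by rw [Real.dist_eq]; exact hx)
    rwa [Real.dist_eq] at this
  obtain ⟨⟨s, hs, hs'⟩, t, ht, ht'⟩ := hz δ' hδ'
  -- the perturbed maps
  have key : ∀ σ : ℝ, |σ| ≤ 1 → ∃ ε > 0, ε < δ / 2 ∧ s < e (f s + σ * ε) ∧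
      e (f t + σ * ε) < t := by
    intro σ _
    have c1 : Tendsto (fun ε : ℝ => e (f s + σ * ε)) (𝓝 0) (𝓝 (e (f s + σ * 0))) :=
      (ce.comp (by fun_prop : Continuous fun ε : ℝ => f s + σ * ε)).tendsto 0
    have c2 : Tendsto (fun ε : ℝ => e (f t + σ * ε)) (𝓝 0) (𝓝 (e (f t + σ * 0))) :=
      (ce.comp (by fun_prop : Continuous fun ε : ℝ => f t + σ * ε)).tendsto 0
    rw [mul_zero, add_zero, hef] at c1 c2
    obtain ⟨r, hr, hr'⟩ := Metric.eventually_nhds_iff.1
      ((c1.eventually (lt_mem_nhds hs')).and (c2.eventually (gt_mem_nhds ht')))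
    refine ⟨min (r / 2) (δ / 4), lt_min (by positivity) (by positivity), ?_, ?_⟩
    · exact lt_of_le_of_lt (min_le_right _ _) (by linarith)
    · apply hr'
      rw [Real.dist_eq, sub_zero, abs_of_pos (lt_min (by positivity) (by positivity))]
      exact lt_of_le_of_lt (min_le_left _ _) (by linarith)
  -- a fixed point of the perturbed map
  have key2 : ∀ σ : ℝ, |σ| ≤ 1 → ∃ ε > 0, ∃ y, |y - f z| < δ ∧ h y = y - σ * ε := by
    intro σ hσ
    obtain ⟨ε, hε, hεδ, h1, h2⟩ := key σ hσ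
    obtain ⟨x, hx, hx'⟩ := zero_between (u := fun x => e (f x + σ * ε) - x)
      (by fun_prop) hs ht (by linarith) (by linarith)
    refine ⟨ε, hε, f x + σ * ε, ?_, ?_⟩
    · have h3 := hd' x hx
      have h4 : |σ * ε| < δ / 2 := by
        rw [abs_mul, abs_of_pos hε]
        calc |σ| * ε ≤ 1 * ε := by gcongr
          _ < δ / 2 := by linarith
      calc |f x + σ * ε - f z| = |(f x - f z) + σ * ε| := by ring_nf
        _ ≤ |f x - f z| + |σ * ε| := abs_add_le _ _
        _ < δ := by linarith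
    · have h5 : e (f x + σ * ε) = x := by linarith
      rw [← hfe, h5]; ring
  constructor
  · obtain ⟨ε, hε, y, hy, hy'⟩ := key2 (-1) (by simp)
    exact ⟨y, hy, by rw [hy']; linarith⟩
  · obtain ⟨ε, hε, y, hy, hy'⟩ := key2 1 (by simp)
    exact ⟨y, hy, by rw [hy']; linarith⟩

variable {f g : ℝ → ℝ} {a b : ℝ}

lemma word_split_f (hfg : Function.Commute f g) {k l : ℕ} (hk : 0 < k) :
    (∀ x, f (f^[k - 1] (g^[l] x)) = f^[k] (g^[l] x)) ∧
    (∀ x, f^[k - 1] (g^[l] (f x)) = f^[k] (g^[l] x)) := by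
  obtain ⟨m, rfl⟩ : ∃ m, k = m + 1 := ⟨k - 1, by omega⟩
  simp only [Nat.add_sub_cancel]
  refine ⟨fun x => (iterate_succ_apply' f m _).symm, fun x => ?_⟩
  rw [← (hfg.iterate_right l).eq, ← iterate_succ_apply]

lemma word_split_g (hfg : Function.Commute f g) {k l : ℕ} (hl : 0 < l) :
    (∀ x, g (f^[k] (g^[l - 1] x)) = f^[k] (g^[l] x)) ∧
    (∀ x, f^[k] (g^[l - 1] (g x)) = f^[k] (g^[l] x)) := by
  obtain ⟨m, rfl⟩ : ∃ m, l = m + 1 := ⟨l - 1, by omega⟩
  simp only [Nat.add_sub_cancel]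
  refine ⟨fun x => ?_, fun x => by rw [← iterate_succ_apply]⟩
  rw [← (hfg.iterate_left k).eq, ← iterate_succ_apply' g m]

lemma sch_inv_f (S : Sys f g a b) {k l : ℕ} (hk : 0 < k) :
    ∀ z ∈ SCh (f^[k] ∘ g^[l]), f z ∈ SCh (f^[k] ∘ g^[l]) := by
  have hfg : Function.Commute f g := fun x => S.comm x
  exact sch_inv (e := f^[k - 1] ∘ g^[l]) S.cf ((S.cf.iterate _).comp (S.cg.iterate _))
    (word_split_f hfg hk).1 (word_split_f hfg hk).2

lemma sch_inv_g (S : Sys f g a b) {k l : ℕ} (hl : 0 < l) :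
    ∀ z ∈ SCh (f^[k] ∘ g^[l]), g z ∈ SCh (f^[k] ∘ g^[l]) := by
  have hfg : Function.Commute f g := fun x => S.comm x
  exact sch_inv (e := f^[k] ∘ g^[l - 1]) S.cg ((S.cf.iterate _).comp (S.cg.iterate _))
    (word_split_g hfg hl).1 (word_split_g hfg hl).2

/-- if the fixed points contain no interval, there is a sign change -/
lemma sch_nonempty {h : ℝ → ℝ} (hr : ∀ x, h x ∈ Icc a b)
    (hthin : ∀ p q : ℝ, p < q → ∃ y ∈ Icc p q, h y ≠ y) : (SCh h).Nonempty := by
  set U : Set ℝ := {x | x < h x} with hU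
  set V : Set ℝ := {x | h x < x} with hV
  have hab : a ≤ b := (hr 0).1.trans (hr 0).2
  set A : Set ℝ := closure U ∩ Icc (a - 1) (b + 1) with hA
  set B : Set ℝ := closure V ∩ Icc (a - 1) (b + 1) with hB
  have Ac : IsCompact A := isCompact_Icc.inter_left isClosed_closure
  have Bc : IsCompact B := isCompact_Icc.inter_left isClosed_closure
  have Ane : A.Nonempty := ⟨a - 1, subset_closure (show a - 1 < h (a - 1) by
    linarith [(hr (a - 1)).1]), by constructor <;> linarith⟩
  have Bne : B.Nonempty := ⟨b + 1, subset_closure (show h (b + 1) < b + 1 by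
    linarith [(hr (b + 1)).2]), by constructor <;> linarith⟩
  obtain ⟨⟨c, d⟩, ⟨hc, hd⟩, hmin⟩ := (Ac.prod Bc).exists_isMinOn (Ane.prod Bne)
    (f := fun p : ℝ × ℝ => |p.1 - p.2|) (by fun_prop)
  simp only at hc hd
  by_cases hcd : c = d
  · subst hcd
    refine ⟨c, fun δ hδ => ⟨?_, ?_⟩⟩
    · obtain ⟨s, hs, hs'⟩ := Metric.mem_closure_iff.1 hc.1 δ hδ
      exact ⟨s, by rw [abs_sub_comm, ← Real.dist_eq]; exact hs', hs⟩
    · obtain ⟨s, hs, hs'⟩ := Metric.mem_closure_iff.1 hd.1 δ hδ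
      exact ⟨s, by rw [abs_sub_comm, ← Real.dist_eq]; exact hs', hs⟩
  · exfalso
    -- no point of `U ∪ V` strictly between
    have hbetw : ∀ y, min c d < y → y < max c d → h y = y := by
      intro y hy1 hy2
      by_contra hne
      have hyI : y ∈ Icc (a - 1) (b + 1) := by
        constructor
        · exact (le_min hc.2.1 hd.2.1).trans hy1.le
        · exact hy2.le.trans (max_le hc.2.2 hd.2.2)
      rcases lt_or_gt_of_ne hne with h1 | h1
      · -- y in V
        have h2 : (c, y) ∈ A ×ˢ B := ⟨hc, subset_closure h1, hyI⟩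
        have h3 : |c - d| ≤ |c - y| := hmin h2
        rcases lt_or_gt_of_ne hcd with h4 | h4
        · rw [min_eq_left h4.le] at hy1
          rw [max_eq_right h4.le] at hy2
          rw [abs_of_neg (by linarith), abs_of_neg (by linarith)] at h3
          linarith
        · rw [min_eq_right h4.le] at hy1
          rw [max_eq_left h4.le] at hy2
          rw [abs_of_pos (by linarith), abs_of_pos (by linarith)] at h3
          linarith
      · have h2 : (y, d) ∈ A ×ˢ B := ⟨⟨subset_closure h1, hyI⟩, hd⟩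
        have h3 : |c - d| ≤ |y - d| := hmin h2
        rcases lt_or_gt_of_ne hcd with h4 | h4
        · rw [min_eq_left h4.le] at hy1
          rw [max_eq_right h4.le] at hy2
          rw [abs_of_neg (by linarith), abs_of_neg (by linarith)] at h3
          linarith
        · rw [min_eq_right h4.le] at hy1
          rw [max_eq_left h4.le] at hy2
          rw [abs_of_pos (by linarith), abs_of_pos (by linarith)] at h3
          linarith
    have hlt : min c d < max c d := min_lt_max.2 hcd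
    set p := min c d + (max c d - min c d) / 3 with hp
    set q := min c d + (max c d - min c d) * 2 / 3 with hq
    obtain ⟨y, hy, hy'⟩ := hthin p q (by linarith)
    exact hy' (hbetw y (by linarith [hy.1]) (by linarith [hy.2]))

end Pool.Agent.MP4545.SC
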