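import Pool.Agent.Work.MP_4545a8_an.SC.Inv

set_option autoImplicit false

/-!
The minimal sets of sign changes of a word `f^k ∘ g^l`, `k, l ≥ 1`. Adapted from `OM/Trans.lean` and
`OM/Cor.lean`.
-/

namespace Pool.Agent.MP4545.SC

open Set Function Filter Topology
open Pool.Agent.MP4545 Pool.Agent.MP4545.OM

variable {f g : ℝ → ℝ} {a b : ℝ}

/-- Main theorem (adapted from `OM.oneMap_main`). -/
theorem signChange_main (S : Sys f g a b) {k l : ℕ} (hk0 : 0 < k) (hl0 : 0 < l)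
    (H : ∀ M : Set ℝ, M ⊆ Icc a b → Perfect M → M.Nonempty → M ⊆ SCh (f^[k] ∘ g^[l]) →
      f '' M = M → g '' M = M →
      (∀ C ⊆ M, IsClosed C → C.Nonempty → (∀ x ∈ C, f x ∈ C) → (∀ x ∈ C, g x ∈ C) → C = M) →
      ∃ x y : ℝ, ∃ j : ℕ, 0 < j ∧
        MapsTo (f^[k] ∘ g^[l])^[j] (Icc x y ∩ Icc a b) (Icc x y) ∧
        (M ∩ Ioo x y).Nonempty ∧ ¬ M ⊆ Icc x y) :
    ∃ x ∈ Icc a b, x ∈ periodicPts f ∩ periodicPts g := by
  by_contra hcon
  push Not at hcon
  have hfg : Function.Commute f g := fun x => S.comm x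
  have hno : NoCommon f g := by
    intro x n m hn hm h1 h2
    have hx : x ∈ Icc a b := by
      obtain ⟨j, rfl⟩ : ∃ j, n = j + 1 := ⟨n - 1, by omega⟩
      rw [← h1, iterate_succ_apply']; exact S.rf _
    exact hcon x hx ⟨⟨n, hn, h1⟩, ⟨m, hm, h2⟩⟩
  have hab : a ≤ b := (S.rf 0).1.trans (S.rf 0).2
  have hI0 : Ex.Inv f g a b (Icc a b) :=
    ⟨isClosed_Icc, ordConnected_Icc, ⟨a, le_rfl, hab⟩, Subset.rfl, fun x _ => S.rf x,
      fun x _ => S.rg x⟩
  obtain ⟨I, hI, -⟩ := Ex.exists_minInv S hI0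
  obtain ⟨c, d, hcd, hIcd, hfI, hgI, F, G, φ, cφ, mφ, φc, φd, S', hnoF, hsemi, hex⟩ :=
    Ex.main1 S hno hI
  have hFG : Function.Commute F G := fun x => S'.comm x
  have hcdab : Icc c d ⊆ Icc a b := hIcd ▸ hI.sub
  have hex1 : Ex1 F G := by
    intro p q hp hpq hq
    have := hex 1 1 one_pos one_pos p q hp hpq hq
    simpa using this
  have hkl : 0 < k + l := by omega
  -- a minimal set of sign changes of the exact factor
  have hHr : ∀ x, (F^[k] ∘ G^[l]) x ∈ Icc (0 : ℝ) 1 := fun x => word_mem S' hkl x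
  have cH : Continuous (F^[k] ∘ G^[l]) := (S'.cf.iterate k).comp (S'.cg.iterate l)
  have hEne : (SCh (F^[k] ∘ G^[l])).Nonempty := by
    refine sch_nonempty hHr ?_
    intro p q hpq
    rcases lt_or_ge p 0 with h0 | h0
    · refine ⟨p, ⟨le_rfl, hpq.le⟩, fun h => ?_⟩
      have := (hHr p).1
      linarith
    · rcases lt_or_ge 1 q with h1 | h1
      · refine ⟨q, ⟨hpq.le, le_rfl⟩, fun h => ?_⟩
        have := (hHr q).2
        linarith
      · exact fix_thin S' hnoF hex1 hkl h0 hpq h1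
  obtain ⟨Mt, hMt⟩ := exists_jmin (f := F) (g := G) (sch_closed _) hEne
    (fun z hz => by rw [← sch_fix cH hz]; exact hHr z) (sch_inv_f S' hk0) (sch_inv_g S' hl0)
  -- words
  have mf : ∀ n, MapsTo f^[n] (Icc c d) (Icc c d) := by
    intro n
    refine MapsTo.iterate (fun y hy => ?_) n
    rw [← hIcd, ← hfI, hIcd]
    exact mem_image_of_mem _ hy
  have mg : ∀ n, MapsTo g^[n] (Icc c d) (Icc c d) := by
    intro n
    refine MapsTo.iterate (fun y hy => ?_) n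
    rw [← hIcd, ← hgI, hIcd]
    exact mem_image_of_mem _ hy
  have sf : ∀ n, ∀ t ∈ Icc c d, F^[n] (φ t) = φ (f^[n] t) := by
    intro n
    induction n with
    | zero => intro t _; rfl
    | succ n ih =>
      intro t ht
      rw [iterate_succ_apply', iterate_succ_apply', ih t ht, (hsemi _ (mf n ht)).1]
  have sg : ∀ n, ∀ t ∈ Icc c d, G^[n] (φ t) = φ (g^[n] t) := by
    intro n
    induction n with
    | zero => intro t _; rfl
    | succ n ih =>
      intro t ht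
      rw [iterate_succ_apply', iterate_succ_apply', ih t ht, (hsemi _ (mg n ht)).2]
  have sw : ∀ i j, ∀ t ∈ Icc c d, F^[i] (G^[j] (φ t)) = φ (f^[i] (g^[j] t)) := by
    intro i j t ht
    rw [sg j t ht, sf i _ (mg j ht)]
  have mw : ∀ i j, MapsTo (f^[i] ∘ g^[j]) (Icc c d) (Icc c d) := fun i j =>
    (mf i).comp (mg j)
  have ch : Continuous (f^[k] ∘ g^[l]) := (S.cf.iterate k).comp (S.cg.iterate l)
  have mhj : ∀ n, MapsTo (f^[k] ∘ g^[l])^[n] (Icc c d) (Icc c d) := fun n =>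
    MapsTo.iterate (mw k l) n
  have sh : ∀ n, ∀ t ∈ Icc c d, (F^[k] ∘ G^[l])^[n] (φ t) = φ ((f^[k] ∘ g^[l])^[n] t) := by
    intro n
    induction n with
    | zero => intro t _; rfl
    | succ n ih =>
      intro t ht
      rw [iterate_succ_apply', iterate_succ_apply', ih t ht]
      exact sw k l _ (mhj n ht)
  -- the set `N`
  have hMtK : ∀ z ∈ Mt, F^[k] (G^[l] z) = z := fun z hz => sch_fix cH (hMt.sub hz)
  have hMt01 : Mt ⊆ Icc 0 1 := fun z hz => by rw [← hMtK z hz]; exact hHr z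
  have hMtper : Perfect Mt := jmin_perfect S' hnoF
    (fun z hz => by rw [← sch_fix cH hz]; exact hHr z) hMt
  set N : Set ℝ := {t | t ∈ Icc c d ∧ φ t ∈ Mt ∧ t ∈ SCh (f^[k] ∘ g^[l])} with hN
  have Ncl : IsClosed N :=
    isClosed_Icc.inter ((hMt.closed.preimage cφ).inter (sch_closed _))
  have Nab : N ⊆ Icc a b := fun t ht => hcdab ht.1
  have Nne : N.Nonempty := by
    -- a point of `Mt` in the interior with a one-point fibre
    have hcount : ({z | ∃ x y, x < y ∧ φ x = z ∧ φ y = z} ∪ {0, 1} : Set ℝ).Countable :=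
      (mφ.countable_setOfPred_two_preimages).union (by simp)
    obtain ⟨z, hz, hznot⟩ : ∃ z ∈ Mt, z ∉ ({z | ∃ x y, x < y ∧ φ x = z ∧ φ y = z} ∪ {0, 1} :
        Set ℝ) := by
      by_contra hcon'
      push Not at hcon'
      exact perfect_uncountable hMtper hMt.ne (hcount.mono hcon')
    have hz0 : z ≠ 0 := fun h => hznot (Or.inr (by simp [h]))
    have hz1 : z ≠ 1 := fun h => hznot (Or.inr (by simp [h]))
    have hzI := hMt01 hz
    obtain ⟨u, hu, hu'⟩ := intermediate_value_Icc hcd.le cφ.continuousOn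
      (show z ∈ Icc (φ c) (φ d) by rw [φc, φd]; exact hzI)
    have huniq : ∀ x, φ x = z → x = u := by
      intro x hx
      by_contra hne
      rcases lt_or_gt_of_ne hne with h1 | h1
      · exact hznot (Or.inl ⟨x, u, h1, hx, hu'⟩)
      · exact hznot (Or.inl ⟨u, x, h1, hu', hx⟩)
    have huc : c < u := lt_of_le_of_ne hu.1 (fun h => hz0 (by rw [← hu', ← h, φc]))
    have hud : u < d := lt_of_le_of_ne hu.2 (fun h => hz1 (by rw [← hu', h, φd]))
    refine ⟨u, hu, by rw [hu']; exact hz, ?_⟩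
    intro δ hδ
    set δ1 := min (δ / 2) (min (u - c) (d - u)) with hδ1
    have hδ1pos : 0 < δ1 := lt_min (by positivity) (lt_min (by linarith) (by linarith))
    have hδ1a : δ1 < δ := lt_of_le_of_lt (min_le_left _ _) (by linarith)
    have hδ1b : δ1 ≤ u - c := (min_le_right _ _).trans (min_le_left _ _)
    have hδ1c : δ1 ≤ d - u := (min_le_right _ _).trans (min_le_right _ _)
    have hl1 : φ (u - δ1) < z := by
      refine lt_of_le_of_ne (by rw [← hu']; exact mφ (by linarith)) fun h => ?_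
      have := huniq _ h; linarith
    have hl2 : z < φ (u + δ1) := by
      refine lt_of_le_of_ne (by rw [← hu']; exact mφ (by linarith)) fun h => ?_
      have := huniq _ h.symm; linarith
    obtain ⟨⟨s, hs, hs'⟩, t, ht, ht'⟩ := hMt.sub hz (min (z - φ (u - δ1)) (φ (u + δ1) - z))
      (lt_min (by linarith) (by linarith))
    have hlift : ∀ s, |s - z| < min (z - φ (u - δ1)) (φ (u + δ1) - z) →
        ∃ t ∈ Icc c d, φ t = s ∧ |t - u| < δ := by
      intro s hs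
      rw [lt_min_iff, abs_lt, abs_lt] at hs
      obtain ⟨t, ht, ht'⟩ := intermediate_value_Icc (show u - δ1 ≤ u + δ1 by linarith)
        cφ.continuousOn (show s ∈ Icc (φ (u - δ1)) (φ (u + δ1)) from
          ⟨by linarith [hs.1.1], by linarith [hs.2.2]⟩)
      refine ⟨t, ⟨by linarith [ht.1], by linarith [ht.2]⟩, ht', ?_⟩
      rw [abs_lt]
      constructor <;> linarith [ht.1, ht.2]
    constructor
    · obtain ⟨t1, ht1, ht1', ht1''⟩ := hlift s hs
      refine ⟨t1, ht1'', ?_⟩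
      by_contra hle
      push Not at hle
      have h3 := mφ hle
      have h4 := sw k l t1 ht1
      rw [ht1'] at h4
      simp only [comp_apply] at h3 hs'
      rw [← h4, ht1'] at h3
      linarith
    · obtain ⟨t1, ht1, ht1', ht1''⟩ := hlift t ht
      refine ⟨t1, ht1'', ?_⟩
      by_contra hle
      push Not at hle
      have h3 := mφ hle
      have h4 := sw k l t1 ht1
      rw [ht1'] at h4
      simp only [comp_apply] at h3 ht'
      rw [← h4, ht1'] at h3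
      linarith
  have Nf : ∀ t ∈ N, f t ∈ N := by
    rintro t ⟨h1, h2, h3⟩
    refine ⟨mf 1 h1, ?_, ?_⟩
    · rw [← (hsemi t h1).1]; exact hMt.invf _ h2
    · exact sch_inv_f S hk0 t h3
  have Ng : ∀ t ∈ N, g t ∈ N := by
    rintro t ⟨h1, h2, h3⟩
    refine ⟨mg 1 h1, ?_, ?_⟩
    · rw [← (hsemi t h1).2]; exact hMt.invg _ h2
    · exact sch_inv_g S hl0 t h3
  obtain ⟨M, hM⟩ := exists_jmin (f := f) (g := g) Ncl Nne Nab Nf Ng
  have hMper := jmin_perfect S hno Nab hM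
  have hMcd : M ⊆ Icc c d := fun t ht => (hM.sub ht).1
  have hMs : M ⊆ SCh (f^[k] ∘ g^[l]) := fun t ht => (hM.sub ht).2.2
  have hMk : ∀ t ∈ M, f^[k] (g^[l] t) = t := fun t ht => sch_fix ch (hMs ht)
  have hMcomp : IsCompact M := isCompact_Icc.of_isClosed_subset hM.closed hMcd
  -- nondegenerate fibres
  have fib : ∀ s s' : ℝ, s ∈ Icc c d → s' ∈ Icc c d → φ s = φ s' → M ∩ Ioo s s' = ∅ := by
    intro s s' hs hs' hss
    by_contra hne
    rw [← ne_eq, ← nonempty_iff_ne_empty] at hne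
    obtain ⟨x, hxM, hx⟩ := hne
    have hconst : ∀ y ∈ Ioo s s', φ y = φ x := by
      intro y hy
      have h1 : φ s ≤ φ y := mφ hy.1.le
      have h2 : φ y ≤ φ s' := mφ hy.2.le
      have h3 : φ s ≤ φ x := mφ hx.1.le
      have h4 : φ x ≤ φ s' := mφ hx.2.le
      linarith
    set V : Set ℝ := {z | ∃ i j : ℕ, i * l = j * k ∧ z = f^[i] (g^[j] x)} with hV
    have Vfin : V.Finite := ray_finite hfg hkl (hMk x hxM)
    have hsub : ∀ y ∈ M, y ∈ Ioo s s' → y ∈ V := by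
      intro y hyM hy
      by_contra hyV
      obtain ⟨w, hw1, hw2⟩ := hM.enter S (isOpen_Ioo.sdiff Vfin.isClosed)
        ⟨y, ⟨hy, hyV⟩, hyM⟩ hxM
      apply hw2
      refine ⟨w.1, w.2, ?_, rfl⟩
      by_contra hdet
      have e1 : F^[w.1] (G^[w.2] (φ x)) = φ x := by
        rw [sw _ _ x (hMcd hxM)]
        exact hconst _ hw1
      have e2 : F^[k] (G^[l] (φ x)) = φ x := hMtK _ (hM.sub hxM).2.1
      obtain ⟨⟨n, hn, h1⟩, ⟨m, hm, h2⟩⟩ := indep hFG (s := w.1) (t := w.2) (s' := k) (t' := l)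
        hdet (x := φ x) one_pos one_pos (by simpa using e1) (by simpa using e2)
      exact hnoF _ n m hn hm h1 h2
    have hacc := preperfect_iff_nhds.1 hMper.acc x hxM (Ioo s s' \ (V \ {x}))
      ((isOpen_Ioo.sdiff (Vfin.subset sdiff_subset).isClosed).mem_nhds
        ⟨hx, fun h => h.2 rfl⟩)
    obtain ⟨y, ⟨⟨hy1, hy2⟩, hyM⟩, hyx⟩ := hacc
    exact hy2 ⟨hsub y hyM hy1, hyx⟩
  have inj : ∀ t ∈ M, (∀ δ > 0, ∃ y ∈ M, t < y ∧ y < t + δ) →
      (∀ δ > 0, ∃ y ∈ M, t - δ < y ∧ y < t) → c < t ∧ t < d ∧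
      (∀ u ∈ Icc c d, u < t → φ u < φ t) ∧ (∀ u ∈ Icc c d, t < u → φ t < φ u) := by
    intro t ht h1 h2
    obtain ⟨y1, hy1, hy1', -⟩ := h1 1 one_pos
    obtain ⟨y2, hy2, -, hy2'⟩ := h2 1 one_pos
    refine ⟨lt_of_le_of_lt (hMcd hy2).1 hy2', lt_of_lt_of_le hy1' (hMcd hy1).2, ?_, ?_⟩
    · intro u hu hut
      refine lt_of_le_of_ne (mφ hut.le) fun he => ?_
      obtain ⟨y, hy, hy3, hy4⟩ := h2 (t - u) (by linarith)
      have := fib u t hu (hMcd ht) he
      exact (this.le ⟨hy, by linarith, hy4⟩ : y ∈ (∅ : Set ℝ)).elim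
    · intro u hu hut
      refine lt_of_le_of_ne (mφ hut.le) fun he => ?_
      obtain ⟨y, hy, hy3, hy4⟩ := h1 (u - t) (by linarith)
      have := fib t u (hMcd ht) hu he
      exact (this.le ⟨hy, hy3, by linarith⟩ : y ∈ (∅ : Set ℝ)).elim
  -- use the hypothesis
  have hfM : f '' M = M := by
    apply Subset.antisymm
    · rintro _ ⟨x, hx, rfl⟩; exact hM.invf x hx
    · refine hM.min _ ((hMcomp.image S.cf).isClosed) (hM.ne.image _) ?_ ?_ ?_
      · rintro _ ⟨x, hx, rfl⟩; exact hM.invf x hx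
      · rintro _ ⟨x, hx, rfl⟩; exact ⟨f x, hM.invf x hx, rfl⟩
      · rintro _ ⟨x, hx, rfl⟩; exact ⟨g x, hM.invg x hx, S.comm x⟩
  have hgM : g '' M = M := by
    apply Subset.antisymm
    · rintro _ ⟨x, hx, rfl⟩; exact hM.invg x hx
    · refine hM.min _ ((hMcomp.image S.cg).isClosed) (hM.ne.image _) ?_ ?_ ?_
      · rintro _ ⟨x, hx, rfl⟩; exact hM.invg x hx
      · rintro _ ⟨x, hx, rfl⟩; exact ⟨f x, hM.invf x hx, (S.comm x).symm⟩
      · rintro _ ⟨x, hx, rfl⟩; exact ⟨g x, hM.invg x hx, rfl⟩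
  obtain ⟨x, y, j, hj, hmap, hMxy, hnot⟩ := H M (hMcd.trans hcdab) hMper hM.ne hMs hfM hgM
    (fun C hC1 hC2 hC3 hC4 hC5 => Subset.antisymm hC1 (hM.min C hC2 hC3 hC1 hC4 hC5))
  obtain ⟨i, rfl⟩ : ∃ i, j = i + 1 := ⟨j - 1, by omega⟩
  obtain ⟨t, ⟨htO, htM⟩, ht1, ht2⟩ := exists_two hMper (isOpen_Ioo (a := x) (b := y))
    (by rwa [inter_comm])
  obtain ⟨hct, htd, il, ir⟩ := inj t htM ht1 ht2
  set x' := max x c with hx'
  set y' := min y d with hy'
  have hxt : x' < t := max_lt htO.1 hct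
  have hty : t < y' := lt_min htO.2 htd
  have hx'cd : x' ∈ Icc c d := ⟨le_max_right _ _, hxt.le.trans htd.le⟩
  have hy'cd : y' ∈ Icc c d := ⟨hct.le.trans hty.le, min_le_right _ _⟩
  have hφx : φ x' < φ t := il x' hx'cd hxt
  have hφy : φ t < φ y' := ir y' hy'cd hty
  have hsub' : Icc x' y' ⊆ Icc c d := Icc_subset_Icc hx'cd.1 hy'cd.2
  have hmap' : MapsTo (f^[k] ∘ g^[l])^[i + 1] (Icc x' y') (Icc x' y') := by
    intro u hu
    have h1 : (f^[k] ∘ g^[l])^[i + 1] u ∈ Icc x y := hmap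
      ⟨⟨(le_max_left _ _).trans hu.1, hu.2.trans (min_le_left _ _)⟩, hcdab (hsub' hu)⟩
    have h2 := mhj (i + 1) (hsub' hu)
    exact ⟨max_le h1.1 h2.1, le_min h1.2 h2.2⟩
  have hbig : Icc (0 : ℝ) 1 ⊆ Icc (φ x') (φ y') := by
    have hx0 : 0 ≤ φ x' := by rw [← φc]; exact mφ hx'cd.1
    have hy1 : φ y' ≤ 1 := by rw [← φd]; exact mφ hy'cd.2
    obtain ⟨n0, hn0⟩ := hex k l hk0 hl0 (φ x') (φ y') hx0 (hφx.trans hφy) hy1
    rw [← hn0 ((i + 1) * n0) (Nat.le_mul_of_pos_left _ (Nat.succ_pos i))]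
    rintro _ ⟨z, hz, rfl⟩
    obtain ⟨u, hu, rfl⟩ := intermediate_value_Icc (hxt.le.trans hty.le) cφ.continuousOn hz
    rw [sh _ u (hsub' hu), iterate_mul]
    have h3 := hmap'.iterate n0 hu
    exact ⟨mφ h3.1, mφ h3.2⟩
  have h0 : φ x' ≤ 0 := (hbig ⟨le_rfl, zero_le_one⟩).1
  have h1 : 1 ≤ φ y' := (hbig ⟨zero_le_one, le_rfl⟩).2
  rw [not_subset] at hnot
  obtain ⟨m, hmM, hm⟩ := hnot
  rw [mem_Icc, not_and_or] at hm
  push Not at hm
  rcases hm with hm | hm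
  · obtain ⟨t2, ⟨ht2O, ht2M⟩, h3, h4⟩ := exists_two hMper (isOpen_Iio (a := x)) ⟨m, hm, hmM⟩
    obtain ⟨hc2, hd2, il2, ir2⟩ := inj t2 ht2M h3 h4
    have h5 := ir2 x' hx'cd (lt_of_lt_of_le ht2O (le_max_left _ _))
    have h6 : φ c ≤ φ t2 := mφ hc2.le
    linarith
  · obtain ⟨t2, ⟨ht2O, ht2M⟩, h3, h4⟩ := exists_two hMper (isOpen_Ioi (a := y)) ⟨m, hm, hmM⟩
    obtain ⟨hc2, hd2, il2, ir2⟩ := inj t2 ht2M h3 h4
    have h5 := il2 y' hy'cd (lt_of_le_of_lt (min_le_left _ _) ht2O)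
    have h6 : φ t2 ≤ φ d := mφ hd2.le
    linarith


end Pool.Agent.MP4545.SC
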